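import Pool.Agent.H26.FG.T1M

open CategoryTheory Abelian TensorProduct
open scoped ModuleCat

universe u

namespace Pool.Agent.Results.MP_d746d7_al.CentralExtension

open Pool.Agent.H26.FG

/-- Let `k → A → C → B → k` be an exact sequence of finite-dimensional Hopf algebras over a field
`k` such that `A` is central in `C`. If `B` satisfies FGC then `C` satisfies FGC. -/
theorem result {k : Type u} [Field k] {A C B : Type u} [Ring A] [HopfAlgebra k A]
    [Module.Finite k A] [Ring C] [HopfAlgebra k C] [Module.Finite k C] [Ring B] [HopfAlgebra k B]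
    [Module.Finite k B] (ι : A →ₐc[k] C) (π : C →ₐc[k] B) (hex : HopfExact ι π)
    (hcentral : ∀ (a : A) (c : C), ι a * c = c * ι a) (hB : FGC k B) : FGC k C :=
  T1_main hex hcentral hB

end Pool.Agent.Results.MP_d746d7_al.CentralExtension
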