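import Pool.Agent.H26.FG.MG

open CategoryTheory Abelian TensorProduct
open scoped ModuleCat

universe u

namespace Pool.Agent.Results.MP_d746d7_al.InvariantDegreeTwo

open Pool.Agent.H26.FG

/-- Characteristic `p`. Let `k → A → C → B → k` be an exact sequence of finite-dimensional Hopf
algebras such that `A` and `B` satisfy FGC and `C` acts trivially on `H¹(A, k)`, and let `x j` be
finitely many 2-cocycles of `A` whose classes are invariant under the adjoint action of `C`. Then `C`
satisfies FGC if and only if `Ext_A(k,k)` is a finitely generated module over the classes `x j` and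
the restrictions of classes in `Ext_C(k,k)`. -/
theorem result {k : Type u} [Field k] (p : ℕ) [Fact p.Prime] [CharP k p] {A C B : Type u}
    [Ring A] [HopfAlgebra k A] [Module.Finite k A] [Ring C] [HopfAlgebra k C] [Module.Finite k C]
    [Ring B] [HopfAlgebra k B] [Module.Finite k B]
    (ι : A →ₐc[k] C) (π : C →ₐc[k] B) (hex : HopfExact ι π)
    (hA : FGC k A) (hB : FGC k B) (h1 : TrivH1 ι)
    {J : Type} [Finite J] (x : J → Cocycle₂ (Bialgebra.counitAlgHom k A))
    (h2 : ∀ j, InvClass ι (x j)) :
    FGC k C ↔ ∃ G : Set (Σ n : ℕ, Ext (triv k A) (triv k A) n), G.Finite ∧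
      ∀ V : (n : ℕ) → Submodule k (Ext (triv k A) (triv k A) n), (∀ g ∈ G, g.2 ∈ V g.1) →
        (∀ (a b c : ℕ) (h : a + b = c) (x : Ext (triv k C) (triv k C) a)
          (y : Ext (triv k A) (triv k A) b), y ∈ V b → (res ι x).comp y h ∈ V c) →
        (∀ (j : J) (b c : ℕ) (h : 2 + b = c) (y : Ext (triv k A) (triv k A) b),
          y ∈ V b → (cls₂ (x j)).comp y h ∈ V c) →
        ∀ n, V n = ⊤ :=
  M_iff p ι π hex hA hB h1 x h2

end Pool.Agent.Results.MP_d746d7_al.InvariantDegreeTwo
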