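import Pool.Agent.H42.HA.Rel

open CategoryTheory Abelian TensorProduct
open scoped ModuleCat

universe u

namespace Pool.Agent.Results.MP_d746d7_al.RelativeUnipotent

open Pool.Agent.H26.FG Pool.Agent.H42.HA

/-- Let `k → A → C → B → k` be an exact sequence of finite-dimensional Hopf algebras over a field
`k` such that the algebra dual to the coalgebra `A` is local. Let `D` be a Hopf subalgebra of `C`
which contains `A` such that
* there is `t` in `C` with `ε(t) = 1` and `t c - ε(c) t ∈ D⁺ C` for all `c` (the trivial right
  module is a direct summand of `C / D⁺ C`), and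
* some power of the augmentation ideal of `D` kills `A⁺` in the left adjoint action.
If `B` satisfies FGC then `C` satisfies FGC. -/
theorem result {k : Type u} [Field k] {A D C B : Type u} [Ring A] [HopfAlgebra k A]
    [Module.Finite k A] [Ring D] [HopfAlgebra k D] [Module.Finite k D] [Ring C] [HopfAlgebra k C]
    [Module.Finite k C] [Ring B] [HopfAlgebra k B] [Module.Finite k B]
    (ι : A →ₐc[k] C) (π : C →ₐc[k] B) (hex : HopfExact ι π)
    (hlocal : IsLocalRing (WithConv (A →ₗ[k] k)))
    (κ : A →ₐc[k] D) (j : D →ₐc[k] C) (hj : Function.Injective j) (hκ : ∀ a, j (κ a) = ι a)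
    (t : C) (hε : Coalgebra.counit (R := k) t = 1)
    (ht : ∀ c : C, t * c - Coalgebra.counit (R := k) c • t ∈
      Submodule.span k {x : C | ∃ (d : D) (y : C), Coalgebra.counit (R := k) d = 0 ∧ x = j d * y})
    (hunip : ∃ n : ℕ, ∀ d ∈ (RingHom.ker (Bialgebra.counitAlgHom k D)) ^ n, ∀ a : A,
      Coalgebra.counit (R := k) a = 0 → adl k d (κ a) = 0)
    (hB : FGC k B) : FGC k C := by
  obtain ⟨n, hn⟩ := hunip
  refine rel_main hex κ j hj hκ ht hε nilDual_of_local ⟨n, fun l hl hl1 => hn _ ?_⟩ hB
  clear hn
  induction n generalizing l with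
  | zero =>
    rw [Submodule.pow_zero, Ideal.one_eq_top]
    exact Submodule.mem_top
  | succ m ih =>
    rcases List.eq_nil_or_concat' l with rfl | ⟨l', f, rfl⟩
    · simp at hl
    · rw [List.prod_append, List.prod_singleton, Submodule.pow_succ]
      refine Ideal.mul_mem_mul (ih l' (by simpa using hl) ?_) (hl1 f (by simp))
      intro g hg
      exact hl1 g (by simp [hg])

end Pool.Agent.Results.MP_d746d7_al.RelativeUnipotent
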