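import Pool.Agent.H26.FG.T0bwd
import Pool.Agent.H26.FG.T0fwd

open CategoryTheory Abelian TensorProduct
open scoped ModuleCat

universe u

namespace Pool.Agent.Results.MP_d746d7_al.RestrictionCriterion

open Pool.Agent.H26.FG

/-- For an exact sequence `k → A → C → B → k` of finite-dimensional Hopf algebras with `A` and `B`
satisfying FGC: `C` satisfies FGC if and only if `Ext_A(k,k)` is a finitely generated module over
`Ext_C(k,k)` (through the restriction map). -/
theorem result {k : Type u} [Field k] {A C B : Type u} [Ring A] [HopfAlgebra k A]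
    [Module.Finite k A] [Ring C] [HopfAlgebra k C] [Module.Finite k C] [Ring B] [HopfAlgebra k B]
    [Module.Finite k B] (ι : A →ₐc[k] C) (π : C →ₐc[k] B) (hex : HopfExact ι π)
    (hA : FGC k A) (hB : FGC k B) :
    FGC k C ↔ ∃ G : Set (Σ n : ℕ, Ext (triv k A) (triv k A) n), G.Finite ∧
      ∀ V : (n : ℕ) → Submodule k (Ext (triv k A) (triv k A) n), (∀ g ∈ G, g.2 ∈ V g.1) →
        (∀ (a b c : ℕ) (h : a + b = c) (x : Ext (triv k C) (triv k C) a)
          (y : Ext (triv k A) (triv k A) b), y ∈ V b → (res ι x).comp y h ∈ V c) →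
        ∀ n, V n = ⊤ :=
  ⟨fun hC => T0_forward hex hC, fun h => T0_backward hex hA hB h⟩

end Pool.Agent.Results.MP_d746d7_al.RestrictionCriterion
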